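import Pool.Agent.Work.MP_a8fbd7_nt.EX.WX.All

/-!
MP_a8fbd7_nt (prime counts in Oppermann intervals): lower bounds of the right order for the numbers of primes in the left halves
and in the right halves, on average over windows `N < n ≤ N + H` with `N^(37/400) ≤ H ≤ N`.
-/

set_option autoImplicit false

namespace Pool.Agent.Results.MP_a8fbd7_nt.HalvesLowerBound

/-- There is `N0` such that for all integers `N ≥ N0` and `H` with `N^(37/400) ≤ H ≤ N`: the sum over `N < n ≤ N + H` of the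
number `A(n)` of primes in `[n² - n, n²]` is at least `(1/250) ∑ n / log n`, and the same holds for the number `B(n)` of primes
in `[n², n² + n]`. -/
theorem result : ∃ N0 : ℕ, ∀ N H : ℕ, N0 ≤ N → (N : ℝ) ^ (37 / 400 : ℝ) ≤ H → H ≤ N →
    1 / 250 * ∑ n ∈ Finset.Ioc N (N + H), (n : ℝ) / Real.log (n : ℝ) ≤
      ∑ n ∈ Finset.Ioc N (N + H), (((Finset.Icc (n ^ 2 - n) (n ^ 2)).filter Nat.Prime).card : ℝ) ∧
    1 / 250 * ∑ n ∈ Finset.Ioc N (N + H), (n : ℝ) / Real.log (n : ℝ) ≤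
      ∑ n ∈ Finset.Ioc N (N + H), (((Finset.Icc (n ^ 2) (n ^ 2 + n)).filter Nat.Prime).card : ℝ) := by
  obtain ⟨N0, h⟩ := Pool.Agent.Work.MP_a8fbd7_nt.EX.WX.main
  refine ⟨N0, fun N H hN hH1 hH2 => ?_⟩
  obtain ⟨hA, hB⟩ := h N H hN hH1 hH2
  have e : 1 / 250 * ∑ n ∈ Finset.Ioc N (N + H), (n : ℝ) / Real.log (n : ℝ) =
      1 / 125 * ∑ n ∈ Finset.Ioc N (N + H), Pool.Agent.Work.MP_a8fbd7_nt.OX.CW.gn n := by
    rw [Finset.mul_sum, Finset.mul_sum]
    refine Finset.sum_congr rfl fun n _ => ?_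
    have e1 : Pool.Agent.Work.MP_a8fbd7_nt.OX.CW.gn n = (n : ℝ) / (2 * Real.log n) := rfl
    rw [e1, div_mul_eq_div_div_swap]
    ring
  rw [e]
  exact ⟨hA, hB⟩

end Pool.Agent.Results.MP_a8fbd7_nt.HalvesLowerBound
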