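import Pool.Agent.Work.MP_a8fbd7_nt.PAR.AllR

/-!
# MP_a8fbd7_nt: both parities in every interval of length `c n` between `n² - n` and `n² + n`

For every `c > 0` and every large `n`, every interval of integers `[a, b] ⊆ [n² - n, n² + n]` of length at least `c n` contains at least
`n / (log n)^(4/5)` integers with an even number of prime factors and at least as many with an odd number of prime factors (prime
factors are counted with multiplicity: `ArithmeticFunction.cardFactors`, usually called `Ω`).  In particular this holds for the two
intervals `[n² - n, n²]` and `[n², n² + n]` of the problem, for every large `n`.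
-/

namespace Pool.Agent.Results.MP_a8fbd7_nt.OppermannParity

/-- For every `c > 0` there is `n0` such that for all `n ≥ n0` and all integers `a`, `b` with `n² - n ≤ a`, `b ≤ n² + n` and
`a + c n ≤ b`, the interval `[a, b]` contains at least `n / (log n)^(4/5)` integers `m` with `Ω(m)` even and at least
`n / (log n)^(4/5)` integers `m` with `Ω(m)` odd. -/
theorem result : ∀ c : ℝ, 0 < c → ∃ n0 : ℕ, ∀ n a b : ℕ, n0 ≤ n → n ^ 2 - n ≤ a → b ≤ n ^ 2 + n →
    (a : ℝ) + c * n ≤ b →
    (n : ℝ) / Real.log n ^ (4 / 5 : ℝ) ≤
      (((Finset.Icc a b).filter fun m => Even (ArithmeticFunction.cardFactors m)).card : ℝ) ∧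
    (n : ℝ) / Real.log n ^ (4 / 5 : ℝ) ≤
      (((Finset.Icc a b).filter fun m => Odd (ArithmeticFunction.cardFactors m)).card : ℝ) :=
  Pool.Agent.Work.MP_a8fbd7_nt.PAR.oppR

end Pool.Agent.Results.MP_a8fbd7_nt.OppermannParity
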